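import Pool.Agent.Helper31.CT.Sing
import Pool.Agent.Helper10.CT.Parity
import Pool.Agent.Helper45.CT.Fold
import Pool.Agent.Helper30.CT.Trs
import Pool.Agent.Helper11.CT.OkSy
import Pool.Agent.Helper88.CT.SingOfHam
import Pool.Agent.Helper69.CT.RunG
import Pool.Agent.Helper16.CT.Cands

set_option autoImplicit false

/-!
# FS-10: the main case of the soundness of the checker (MP_16e137_co)
-/

namespace Pool.Agent.Helper17.CT

/-- the statement of FS-6 (completeness of the enumeration of the candidates) -/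
def CandsSound : Prop :=
  ∀ (F : Code) (_ : CodeOK F) (S : Tri') (T : TT) (G Tm U m : ℕ) (l : List ℕ)
    (_ : cands F S G Tm U m F.k 0 [] (popc U F.k) 0 T = some l)
    (b : Fin F.k → Fin F.k) (_ : NC b) (B : ℕ) (_ : CodeB b B) (_ : B < 2 ^ (4 * F.k))
    (_ : CodeU b U) (_ : sing F.k m B U = true) (_ : dup F S Tm U B = false),
    ∃ w ∈ l, look (extB b) (fun p => decide (d2 G (d6 F.Q p) = d2 G (d6 F.Q (extB b p)))) F.k 0 T
      = some w

/-! ### codes -/

private lemma ndc_digits (g : ℕ → ℕ) (hg : ∀ j, g j < 16) (k : ℕ) :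
    ∃ B < 16 ^ k, ∀ j < k, B / 16 ^ j % 16 = g j := by
  induction k with
  | zero => exact ⟨0, by simp, fun j hj => absurd hj (Nat.not_lt_zero j)⟩
  | succ k ih =>
    obtain ⟨B, hB, h⟩ := ih
    have hp : 0 < 16 ^ k := by positivity
    refine ⟨B + 16 ^ k * g k, ?_, fun j hj => ?_⟩
    · have h1 : 16 ^ k * g k ≤ 16 ^ k * 15 := Nat.mul_le_mul_left _ (by have := hg k; omega)
      rw [pow_succ]
      omega
    · rcases Nat.lt_succ_iff_lt_or_eq.mp hj with h1 | h1
      · obtain ⟨c, rfl⟩ : ∃ c, k = j + (c + 1) := ⟨k - j - 1, by omega⟩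
        have h2 : 16 ^ (j + (c + 1)) * g (j + (c + 1)) =
            16 ^ j * (16 * (16 ^ c * g (j + (c + 1)))) := by
          rw [pow_add, pow_succ]; ring
        rw [h2, Nat.add_mul_div_left _ _ (by positivity), Nat.add_mul_mod_self_left]
        exact h j h1
      · subst h1
        rw [Nat.add_mul_div_left _ _ hp, Nat.div_eq_of_lt hB, zero_add]
        exact Nat.mod_eq_of_lt (hg j)

private lemma ndc_d4 (a i : ℕ) : d4 a i = a / 16 ^ i % 16 := by
  have h : d4 a i = (a >>> (4 * i)) % 16 := rfl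
  rw [h, Nat.shiftRight_eq_div_pow, pow_mul]
  norm_num

private lemma ndc_codeB {k : ℕ} (hk : k ≤ 16) (b : Fin k → Fin k) :
    ∃ B, B < 2 ^ (4 * k) ∧ CodeB b B := by
  obtain ⟨B, hB, h⟩ := ndc_digits (fun j => if hj : j < k then (b ⟨j, hj⟩ : ℕ) else 0)
    (fun j => by
      by_cases hj : j < k
      · have := (b ⟨j, hj⟩).2
        simp only [hj, dite_true]
        omega
      · simp only [hj, dite_false]
        omega) k
  refine ⟨B, by rw [pow_mul]; norm_num; exact hB, fun j => ?_⟩
  rw [ndc_d4, h j j.2]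
  simp only [j.2, dite_true, Fin.eta]

private lemma ndc_codeU {k : ℕ} (b : Fin k → Fin k) : ∃ U, CodeU b U := by
  refine ⟨Nat.ofBits (fun j : Fin k => decide (b j ≠ j)), Nat.ofBits_lt_two_pow _, fun j => ?_⟩
  rw [SingAux.tb_eq, Nat.testBit_ofBits_lt _ _ j.2]
  simp

/-- the common form of the mask loops -/
private def ndcLp (c : ℕ → Bool) : ℕ → ℕ → ℕ
  | 0, acc => acc
  | f + 1, acc => ndcLp c f (cond (c f) acc (acc ||| (1 <<< f)))

private lemma ndcLp_bit (c : ℕ → Bool) (f : ℕ) : ∀ acc j, (ndcLp c f acc).testBit j =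
    (acc.testBit j || (decide (j < f) && !c j)) := by
  induction f with
  | zero => intro acc j; simp [ndcLp]
  | succ f ih =>
    intro acc j
    rw [ndcLp, ih]
    cases hc : c f
    · rw [cond_false, Nat.testBit_or, Nat.one_shiftLeft, Nat.testBit_two_pow]
      by_cases hj : j = f
      · subst hj; simp [hc]
      · have h1 : decide (f = j) = false := decide_eq_false (fun h => hj h.symm)
        have h2 : decide (j < f + 1) = decide (j < f) := by
          apply decide_eq_decide.mpr; omega
        rw [h1, h2, Bool.or_false]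
    · rw [cond_true]
      by_cases hj : j = f
      · subst hj; simp [hc]
      · have h2 : decide (j < f + 1) = decide (j < f) := by
          apply decide_eq_decide.mpr; omega
        rw [h2]

private lemma ndcLp_lt (c : ℕ → Bool) (f : ℕ) : ndcLp c f 0 < 2 ^ f := by
  refine Nat.lt_pow_two_of_testBit _ fun i hi => ?_
  rw [ndcLp_bit, Nat.zero_testBit, Bool.false_or, decide_eq_false (by omega), Bool.false_and]

private lemma ndc_portM (F : Code) (G i f : ℕ) : ∀ acc, portM F G i f acc =
    ndcLp (fun j => Nat.beq (d2 G (d6 F.Q j)) i) f acc := by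
  induction f with
  | zero => intro acc; rfl
  | succ f ih => intro acc; exact ih _

private lemma ndc_maskOf (G i f : ℕ) : ∀ acc, maskOf G i f acc =
    ndcLp (fun j => Nat.beq (d2 G j) i) f acc := by
  induction f with
  | zero => intro acc; rfl
  | succ f ih => intro acc; exact ih _

private lemma ndc_beq (a b : ℕ) : Nat.beq a b = decide (a = b) := by
  by_cases h : a = b
  · rw [decide_eq_true h]; exact Nat.beq_eq.mpr h
  · rw [decide_eq_false h, ← Bool.not_eq_true, Nat.beq_eq]; exact h

private lemma ndc_allL {α : Type} (g : α → Bool) (l : List α) :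
    allL g l = true ↔ ∀ a ∈ l, g a = true := by
  induction l with
  | nil => simp [allL]
  | cons a l ih =>
    have h : allL g (a :: l) = (g a && allL g l) := rfl
    rw [h, Bool.and_eq_true, ih]
    simp

private lemma ndc_anyL {α : Type} (g : α → Bool) (l : List α) :
    anyL g l = true ↔ ∃ a ∈ l, g a = true := by
  induction l with
  | nil => simp [anyL]
  | cons a l ih =>
    have h : anyL g (a :: l) = (g a || anyL g l) := rfl
    rw [h, Bool.or_eq_true, ih]
    simp

private lemma ndc_get (g : Sy → Bool) (U : ℕ) (S : Tri') : ∀ (p : ℕ) (s : Sy),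
    Tri'.all g S = true → s ∈ S.get U p → g s = true := by
  induction S with
  | leaf l =>
    intro p s h hs
    exact (ndc_allL g l).mp h s hs
  | node l r ihl ihr =>
    intro p s h hs
    have h1 : (Tri'.all g l && Tri'.all g r) = true := h
    rw [Bool.and_eq_true] at h1
    have h2 : s ∈ cond (tb U p) (Tri'.get U r (p + 1)) (Tri'.get U l (p + 1)) := hs
    cases hc : tb U p
    · rw [hc] at h2
      exact ihl _ s h1.1 h2
    · rw [hc] at h2
      exact ihr _ s h1.2 h2

private lemma ndc_look (b : ℕ → ℕ) (e e' : ℕ → Bool) (he : ∀ p, b p ≠ p → e p = e' p) (f : ℕ) :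
    ∀ (p : ℕ) (T : TT), look b e f p T = look b e' f p T := by
  induction f with
  | zero => intro p T; cases T <;> rfl
  | succ f ih =>
    intro p T
    simp only [look]
    split_ifs with h1 h2 h3 h4 h5
    · exact ih _ _
    · exact ih _ _
    · exact ih _ _
    · exact absurd (he p h1 ▸ h3) h4
    · exact absurd ((he p h1).symm ▸ h5) h3
    · exact ih _ _

private lemma ndc_shift {a n : ℕ} (h : Nat.beq (Nat.shiftRight a n) 0 = true) : a < 2 ^ n := by
  have h1 : a >>> n = 0 := Nat.beq_eq.mp h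
  rw [Nat.shiftRight_eq_div_pow] at h1
  exact (Nat.div_eq_zero_iff.mp h1).resolve_left (by positivity)

private lemma ndc_okSy {F : Code} {s : Sy} (h : okSy F s = true) : s.T < 2 ^ (3 * F.n) := by
  unfold okSy at h
  rw [Bool.and_eq_true, Bool.and_eq_true] at h
  have h1 := h.2.2
  cases ht : trs F (fun x => tb s.T x) F.k 0 0 0 with
  | none => rw [ht] at h1; exact absurd h1 (by simp)
  | some mc =>
    obtain ⟨m, cov⟩ := mc
    rw [ht] at h1
    simp only [Bool.and_eq_true] at h1
    exact ndc_shift h1.2.2.2.2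

/-! ### the main argument -/

section
variable {F : Code} (hF : CodeOK F) (D : Data (piece F hF))

include hF in
private lemma ndc_k : F.k ≤ 15 := by
  by_contra h
  have h1 := (hF.q 15 (by omega)).2
  rw [ndc_d4] at h1
  omega

/-- a listed system that closes up to a Hamilton cycle is one of the three -/
private lemma ndc_sys (S : Tri') (hS : Tri'.all (okSy F) S = true) (O : D.Ω) (B U : ℕ)
    (hB : CodeB (D.b O) B) (hU : CodeU (D.b O) U) (s : Sy) (hs : s ∈ S.get U 0) (hsU : s.U = U)
    (h : sing' F.k s.m B U = true) :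
    s.T < 2 ^ (3 * F.n) ∧ ∃ i, O = D.T i ∧ (fun x : Fin (3 * F.n) => tb s.T x) =
      fun x => decide (D.γ x ≠ i) := by
  have h1 : okSy F s = true := ndc_get _ _ _ _ _ hS hs
  subst hsU
  exact ⟨ndc_okSy h1, D.all O _ (hamF_of_okSy F hF s h1 (D.b O) (D.inv O) B hB hU h)⟩

variable {D}

private lemma ndc_fin3 (a b c : Fin 3) (h : a ≠ b) (h1 : c = a ↔ c = b) :
    c ≠ a ∧ c ≠ b := by
  constructor
  · intro h2
    exact h (h2.symm.trans (h1.1 h2))
  · intro h2
    exact h ((h1.2 h2).symm.trans h2)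

private lemma ndc_third (a b c c' : Fin 3) (h : a ≠ b) (h1 : c ≠ a ∧ c ≠ b)
    (h2 : c' ≠ a ∧ c' ≠ b) : c = c' := by
  revert a b c c'
  decide

private lemma ndc_inj (hne : ∃ j j', D.γ ((piece F hF).q j) ≠ D.γ ((piece F hF).q j'))
    (i i' : Fin 3) (h : D.T i = D.T i') : i = i' := by
  by_contra hii
  obtain ⟨j, j', hj⟩ := hne
  have h1 : ∀ j, D.γ ((piece F hF).q j) = i ↔ D.γ ((piece F hF).q j) = i' := by
    intro j
    have h2 := (D.comp i j).1
    have h3 := (D.comp i' j).1
    rw [h] at h2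
    exact not_iff_not.mp (h2.trans h3.symm)
  exact hj (ndc_third i i' _ _ hii (ndc_fin3 i i' _ hii (h1 j)) (ndc_fin3 i i' _ hii (h1 j')))

private lemma ndc_used (hne : ∃ j j', D.γ ((piece F hF).q j) ≠ D.γ ((piece F hF).q j'))
    (i : Fin 3) : ∃ j, D.b (D.T i) j ≠ j := by
  obtain ⟨j, j', hj⟩ := hne
  by_cases h : D.γ ((piece F hF).q j) = i
  · exact ⟨j', (D.comp i j').1.1 (fun h' => hj (h.trans h'.symm))⟩
  · exact ⟨j, (D.comp i j).1.1 h⟩

/-- the two facts about one colour -/
private lemma ndc_colour (hcs : CandsSound) (S : Tri') (hS : Tri'.all (okSy F) S = true) (T : TT)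
    (hne : ∃ j j', D.γ ((piece F hF).q j) ≠ D.γ ((piece F hF).q j'))
    (G : ℕ) (hGc : ∀ x : Fin (3 * F.n), d2 G x = (D.γ x : ℕ)) (v : D.Ω → ℕ)
    (hv : ∀ O w, look (extB (D.b O)) (extE (D.ε O)) F.k 0 T = some w → v O = w) (i : Fin 3) :
    incov F G i = false ∧ ∀ l, vals F S T G i = some l → v (D.T i) ∈ l := by
  have hk := ndc_k hF
  have hH := D.ham i
  have hu : ∀ x : Fin (3 * F.n), (!(Nat.beq (d2 G x) i)) = decide (D.γ x ≠ i) := by
    intro x
    rw [ndc_beq, hGc, ← decide_not]
    apply decide_eq_decide.mpr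
    rw [Fin.val_inj]
  have hsp : ∀ m cov, trs F (fun x => !(Nat.beq (d2 G x) i)) F.k 0 0 0 = some (m, cov) →
      TrSpec F hF (fun x => decide (D.γ x ≠ i)) m cov := fun m cov h =>
    trs_spec F hF _ ⟨hH.ecl, hH.one⟩ _ hu m cov h
  obtain ⟨B, hB', hB⟩ := ndc_codeB (k := F.k) (by omega) (D.b (D.T i))
  have hsing : ∀ m cov U, trs F (fun x => !(Nat.beq (d2 G x) i)) F.k 0 0 0 = some (m, cov) →
      CodeU (D.b (D.T i)) U → cov = 2 ^ F.n - 1 ∧ sing F.k m B U = true := fun m cov U h hU =>
    sing_of_hamF F hF _ _ (D.inv _) hH m cov (hsp m cov h) (ndc_used hF hne i) B U hB hU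
  constructor
  · have h0 : incov F G i = match trs F (fun x => !(Nat.beq (d2 G x) i)) F.k 0 0 0 with
      | none => false
      | some (_, cov) => !(Nat.beq cov (1 <<< F.n - 1)) := rfl
    rw [h0]
    cases h : trs F (fun x => !(Nat.beq (d2 G x) i)) F.k 0 0 0 with
    | none => rfl
    | some mc =>
      obtain ⟨m, cov⟩ := mc
      obtain ⟨U, hU⟩ := ndc_codeU (D.b (D.T i))
      have h1 := (hsing m cov U h hU).1
      show (!(Nat.beq cov (1 <<< F.n - 1))) = false
      rw [Nat.one_shiftLeft, ← h1, Nat.beq_refl]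
      rfl
  · intro l hl
    have h0 : vals F S T G i = match trs F (fun x => !(Nat.beq (d2 G x) i)) F.k 0 0 0 with
      | none => none
      | some (m, _) => cands F S G (maskOf G i (3 * F.n) 0) (portM F G i F.k 0) m F.k 0 []
          (popc (portM F G i F.k 0) F.k) 0 T := rfl
    rw [h0] at hl
    cases h : trs F (fun x => !(Nat.beq (d2 G x) i)) F.k 0 0 0 with
    | none => rw [h] at hl; exact absurd hl (by simp)
    | some mc =>
      obtain ⟨m, cov⟩ := mc
      rw [h] at hl
      have hcol : ∀ j : Fin F.k, d2 G (d6 F.Q j) = (D.γ ((piece F hF).q j) : ℕ) := fun j =>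
        hGc ((piece F hF).q j)
      have hU : CodeU (D.b (D.T i)) (portM F G i F.k 0) := by
        rw [ndc_portM]
        refine ⟨ndcLp_lt _ _, fun j => ?_⟩
        rw [SingAux.tb_eq, ndcLp_bit, Nat.zero_testBit, Bool.false_or, decide_eq_true j.2,
          Bool.true_and, ndc_beq, hcol, ← decide_not, decide_eq_true_iff, Fin.val_inj]
        exact (D.comp i j).1
      have h1 := (hsing m cov _ h hU).2
      have h2 : dup F S (maskOf G i (3 * F.n) 0) (portM F G i F.k 0) B = false := by
        rw [← Bool.not_eq_true]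
        intro h3
        have h4 : anyL (fun s => ((Nat.beq s.U (portM F G i F.k 0)) &&
            (!(Nat.beq s.T (maskOf G i (3 * F.n) 0)))) && (sing' F.k s.m B (portM F G i F.k 0)))
            (S.get (portM F G i F.k 0) 0) = true := h3
        rw [ndc_anyL] at h4
        obtain ⟨s, hs, h5⟩ := h4
        rw [Bool.and_eq_true, Bool.and_eq_true, Nat.beq_eq] at h5
        obtain ⟨⟨h6, h7⟩, h8⟩ := h5
        obtain ⟨h9, i', h10, h11⟩ := ndc_sys hF D S hS (D.T i) B _ hB hU s hs h6 h8
        have h12 := ndc_inj hF hne i i' h10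
        subst h12
        have h13 : s.T = maskOf G i (3 * F.n) 0 := by
          rw [ndc_maskOf]
          refine Nat.eq_of_testBit_eq fun x => ?_
          by_cases hx : x < 3 * F.n
          · have h14 := congrFun h11 ⟨x, hx⟩
            have h15 : tb s.T x = decide (D.γ ⟨x, hx⟩ ≠ i) := h14
            rw [← SingAux.tb_eq, h15, ndcLp_bit, Nat.zero_testBit, Bool.false_or,
              decide_eq_true hx, Bool.true_and]
            exact (hu ⟨x, hx⟩).symm
          · have h16 : 2 ^ (3 * F.n) ≤ 2 ^ x := Nat.pow_le_pow_right (by norm_num) (by omega)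
            rw [Nat.testBit_lt_two_pow (lt_of_lt_of_le h9 h16),
              Nat.testBit_lt_two_pow (lt_of_lt_of_le (ndcLp_lt _ _) h16)]
        rw [h13, Nat.beq_refl] at h7
        exact absurd h7 (by simp)
      obtain ⟨w, hw, h3⟩ := hcs F hF S T G _ _ m l hl (D.b (D.T i))
        ⟨D.inv _, D.nc _⟩ B hB hB' hU h1 h2
      have h4 : look (extB (D.b (D.T i))) (extE (D.ε (D.T i))) F.k 0 T = some w := by
        rw [← h3]
        refine ndc_look _ _ _ (fun p hp => ?_) _ _ _
        by_cases hpk : p < F.k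
        · have h5 : extB (D.b (D.T i)) p = (D.b (D.T i) ⟨p, hpk⟩ : ℕ) := by
            simp only [extB, hpk, dite_true]
          have h6 : extE (D.ε (D.T i)) p = D.ε (D.T i) ⟨p, hpk⟩ := by
            simp only [extE, hpk, dite_true]
          have h7 : D.b (D.T i) ⟨p, hpk⟩ ≠ ⟨p, hpk⟩ := by
            intro h8
            rw [h8] at h5
            exact hp h5
          have h8 := (D.comp i ⟨p, hpk⟩).2 h7
          show extE (D.ε (D.T i)) p =
            decide (d2 G (d6 F.Q p) = d2 G (d6 F.Q (extB (D.b (D.T i)) p)))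
          rw [h5, h6, hcol (D.b (D.T i) ⟨p, hpk⟩), hcol ⟨p, hpk⟩, Bool.eq_iff_iff,
            decide_eq_true_iff, Fin.val_inj, ← h8]
          exact eq_comm
        · exact absurd (show extB (D.b (D.T i)) p = p by simp only [extB, hpk, dite_false]) hp
      rw [hv _ _ h4]
      exact hw

end

/-- FS-10: the main case, from FS-6 -/
theorem no_data_col_of (hcs : CandsSound) (F : Code) (hF : CodeOK F) (S : Tri') (hS : Tri'.all (okSy F) S = true)
    (Ct : Cert) (hC : okCert Ct F.k = true) (T : TT) (hG : runG F S Ct T = true)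
    (D : Data (piece F hF)) (hne : ∃ j j', D.γ ((piece F hF).q j) ≠ D.γ ((piece F hF).q j'))
    (G : ℕ) (hGc : ∀ x : Fin (3 * F.n), d2 G x = (D.γ x : ℕ)) (h : okCol F S T G = true) :
    False := by
  classical
  have hk := ndc_k hF
  have hrun : ∀ O : D.Ω, ∃ L, ItemSet Ct (D.b O) (D.ε O) L ∧
      (∀ w, look (extB (D.b O)) (extE (D.ε O)) F.k 0 T = some w →
        fold Ct.wd Ct.t (L &&& Ct.W) = w) ∧
      (fold Ct.wd Ct.t (L &&& Ct.W) ≠ 0 → ∃ i, O = D.T i) := by
    intro O
    obtain ⟨B, hB', hB⟩ := ndc_codeB (k := F.k) (by omega) (D.b O)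
    obtain ⟨U, hU⟩ := ndc_codeU (D.b O)
    obtain ⟨L, h1, h2, h3⟩ := runG_sound F hF S Ct T hG (D.b O) ⟨D.inv O, D.nc O⟩ (D.ε O)
      (D.eps O) B U hB hB' hU
    refine ⟨L, h1, h2, fun h4 => ?_⟩
    have h5 : anyL (fun s => (Nat.beq s.U U) && (sing' F.k s.m B U)) (S.get U 0) = true :=
      h3.resolve_left h4
    rw [ndc_anyL] at h5
    obtain ⟨s, hs, h6⟩ := h5
    rw [Bool.and_eq_true, Nat.beq_eq] at h6
    obtain ⟨-, i, h7, -⟩ := ndc_sys hF D S hS O B U hB hU s hs h6.1 h6.2
    exact ⟨i, h7⟩
  choose L hL hlook hTi using hrun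
  let v : D.Ω → ℕ := fun O => fold Ct.wd Ct.t (L O &&& Ct.W)
  have hcol := ndc_colour hF hcs S hS T hne G hGc v hlook
  -- unfold the check
  have h0 : okCol F S T G = ((incov F G 0) || ((incov F G 1) || ((incov F G 2) ||
    (match vals F S T G 0 with
    | none => false
    | some l0 =>
      match vals F S T G 1 with
      | none => false
      | some l1 =>
        match vals F S T G 2 with
        | none => false
        | some l2 => nozero l0 l1 l2)))) := rfl
  have hc0 : incov F G 0 = false := (hcol 0).1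
  have hc1 : incov F G 1 = false := (hcol 1).1
  have hc2 : incov F G 2 = false := (hcol 2).1
  rw [h0, hc0, hc1, hc2, Bool.false_or, Bool.false_or, Bool.false_or] at h
  have hn : Nat.xor (v (D.T 0)) (Nat.xor (v (D.T 1)) (v (D.T 2))) ≠ 0 := by
    cases e0 : vals F S T G 0 with
    | none => rw [e0] at h; exact absurd h (by simp)
    | some l0 =>
      rw [e0] at h
      cases e1 : vals F S T G 1 with
      | none => rw [e1] at h; exact absurd h (by simp)
      | some l1 =>
        rw [e1] at h
        cases e2 : vals F S T G 2 with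
        | none => rw [e2] at h; exact absurd h (by simp)
        | some l2 =>
          rw [e2] at h
          have h1 : allL (fun x => allL (fun y => allL (fun z =>
            !(Nat.beq (Nat.xor x (Nat.xor y z)) 0)) l2) l1) l0 = true := h
          rw [ndc_allL] at h1
          have h2 := h1 _ ((hcol 0).2 l0 e0)
          rw [ndc_allL] at h2
          have h3 := h2 _ ((hcol 1).2 l1 e1)
          rw [ndc_allL] at h3
          have h4 := h3 _ ((hcol 2).2 l2 e2)
          intro h5
          rw [h5] at h4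
          exact absurd h4 (by simp)
  have hbit : ∃ j, (v (D.T 0) ^^^ (v (D.T 1) ^^^ v (D.T 2))).testBit j = true := by
    by_contra h1
    push Not at h1
    exact hn (Nat.zero_of_testBit_eq_false fun j => Bool.eq_false_iff.mpr (h1 j))
  obtain ⟨j, hj⟩ := hbit
  have hjw : j < Ct.wd := by
    by_contra h1
    have h2 : ∀ i, (v (D.T i)).testBit j = false := fun i =>
      Nat.testBit_lt_two_pow (lt_of_lt_of_le (fold_lt _ _ _)
        (Nat.pow_le_pow_right (by norm_num) (by omega)))
    rw [Nat.testBit_xor, Nat.testBit_xor, h2, h2, h2] at hj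
    exact absurd hj (by simp)
  have hev := parity_sum_of fold_testBit D Ct hC L hL j hjw
  have hcard : Nat.card {O : D.Ω // (fold Ct.wd Ct.t (L O &&& Ct.W)).testBit j = true} =
      Nat.card {i : Fin 3 // (v (D.T i)).testBit j = true} := by
    symm
    refine Nat.card_congr (Equiv.ofBijective (fun i => ⟨D.T i.1, i.2⟩) ⟨?_, ?_⟩)
    · rintro ⟨i, hi⟩ ⟨i', hi'⟩ h1
      exact Subtype.ext (ndc_inj hF hne i i' (congrArg Subtype.val h1))
    · rintro ⟨O, hO⟩
      obtain ⟨i, rfl⟩ := hTi O (fun h1 => by rw [h1, Nat.zero_testBit] at hO; simp at hO)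
      exact ⟨⟨i, hO⟩, rfl⟩
  rw [hcard, Nat.card_eq_fintype_card, Fintype.card_subtype, Finset.card_filter,
    Fin.sum_univ_three] at hev
  rw [Nat.testBit_xor, Nat.testBit_xor] at hj
  revert hj hev
  cases (v (D.T 0)).testBit j <;> cases (v (D.T 1)).testBit j <;>
    cases (v (D.T 2)).testBit j <;> (simp; try decide)

/-- FS-10: the main case -/
theorem no_data_col (F : Code) (hF : CodeOK F) (S : Tri') (hS : Tri'.all (okSy F) S = true)
    (Ct : Cert) (hC : okCert Ct F.k = true) (T : TT) (hG : runG F S Ct T = true)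
    (D : Data (piece F hF)) (hne : ∃ j j', D.γ ((piece F hF).q j) ≠ D.γ ((piece F hF).q j'))
    (G : ℕ) (hGc : ∀ x : Fin (3 * F.n), d2 G x = (D.γ x : ℕ)) (h : okCol F S T G = true) :
    False :=
  no_data_col_of (fun F hF S T G Tm U m l h b hb B hB hB' hU h1 h2 =>
    cands_sound F hF S T G Tm U m l h b hb B hB hB' hU h1 h2) F hF S hS Ct hC T hG D hne G hGc h

end Pool.Agent.Helper17.CT
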